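import Pool.Agent.Y462.PA.Stm

/-!
# Project PA (helper462), job PA-AU3: the states of a finite-state automorphism

Owner helper936.
-/

set_option autoImplicit false

namespace Pool.Agent.Y936.PA.Au3

open Pool.Agent.Y462.SS Pool.Agent.Y462.PA

theorem secw_append {X : Type} (v : List X) : ∀ (g : T X) (w : List X),
    g.1 (v ++ w) = g.1 v ++ (secw g v).1 w := by
  induction v with
  | nil => intro g w; rw [nil_eq]; rfl
  | cons x v ih => intro g w; rw [List.cons_append, cons_eq, cons_eq, ih]; rfl

theorem t_au3 : S_AU3 := by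
  intro X g hg
  refine Set.Finite.of_finite_image (f := fun h : T X => (h.1 : List X → List X))
    (hg.subset ?_) ?_
  · rintro _ ⟨h, ⟨v, rfl⟩, rfl⟩
    exact ⟨v, secw_append v g⟩
  · intro a _ b _ hab
    exact Subtype.ext (Equiv.ext (congrFun hab))

end Pool.Agent.Y936.PA.Au3
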